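import Pool.Agent.Lib.MP_37af32_pr.Bin

set_option autoImplicit false

open MeasureTheory Pool.Agent.Lib.MP_37af32_pr

namespace Pool.Agent.Results.MP_37af32_pr.AllAlphabets

/-- In every dimension, over every alphabet with at least two letters and for every neighbourhood
that contains `0`, `v` and `-v` for a nonzero vector `v`, there is a probabilistic cellular
automaton that is ergodic and uniformly ergodic but not exponentially ergodic, not even with
constants depending on the initial measure. -/
theorem result (d q : ℕ) (hq : 2 ≤ q) (N : Finset (Fin d → ℤ)) (v : Fin d → ℤ) (hv : v ≠ 0)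
    (h0 : 0 ∈ N) (h1 : v ∈ N) (h2 : -v ∈ N) :
    ∃ (f : (N → Fin q) → PMF (Fin q)) (π : ProbabilityMeasure (Config d q)),
      ErgodicTo (Phi N f) π ∧ UniformlyErgodic (Phi N f) π ∧
        ¬ ExpConv (Phi N f) π ∧ ¬ WeakExpConv (Phi N f) π := by
  obtain ⟨q, rfl⟩ := Nat.exists_eq_add_of_le' hq
  let B : Bin.Nb d := ⟨N, v, hv, h0, h1, h2⟩
  exact ⟨Bin.rl B q, Bin.p0 d q, Bin.ergodic B, Bin.unif B, Bin.not_exp' B, Bin.not_weakExp B⟩

end Pool.Agent.Results.MP_37af32_pr.AllAlphabets
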