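import Pool.Agent.Lib.MP_37af32_pr.LGUp

set_option autoImplicit false

open MeasureTheory Pool.Agent.Lib.MP_37af32_pr

namespace Pool.Agent.Results.MP_37af32_pr.LogRate

/-- In every dimension at least two there is a uniformly ergodic probabilistic cellular automaton
whose rate of convergence is exactly of order `1 / log t`. -/
theorem result (d : ℕ) (hd : 2 ≤ d) :
    ∃ (N : Finset (Fin d → ℤ)) (f : (N → Fin 16) → PMF (Fin 16))
      (π : ProbabilityMeasure (Config d 16)),
      ErgodicTo (Phi N f) π ∧ UniformlyErgodic (Phi N f) π ∧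
        ¬ ExpConv (Phi N f) π ∧ ¬ WeakExpConv (Phi N f) π ∧
        (∀ (D : Finset (Fin d → ℤ)) (w : D → Fin 16) (μ : ProbabilityMeasure (Config d 16)) (t : ℕ),
          3 ≤ t → dev (Phi N f) π μ t D w ≤ 800 * (D.card : ℝ) / Real.log t) ∧
        ∃ (D : Finset (Fin d → ℤ)) (w : D → Fin 16) (μ : ProbabilityMeasure (Config d 16)),
          ∀ t : ℕ, 3 ≤ t → 1 / 64 / Real.log t ≤ dev (Phi N f) π μ t D w :=
  ⟨LG.nbh (LG.dir d hd), LG.rl (LG.dir d hd), LG.pi0 d, LG.ergodic _, LG.unif _, LG.not_exp' _,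
    LG.not_weakExp _, LG.dev_upper _, {0}, fun _ => LG.w0, LG.mu0 d, LG.dev_log _⟩

end Pool.Agent.Results.MP_37af32_pr.LogRate
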