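import Pool.Agent.Lib.MP_37af32_pr.NU

set_option autoImplicit false

open MeasureTheory Filter Topology Pool.Agent.Lib.MP_37af32_pr

namespace Pool.Agent.Results.MP_37af32_pr.NoRate

/-- In every dimension, over every alphabet with at least three letters and for every
neighbourhood that contains `0`, `v` and `-v` for a nonzero vector `v`, there is an ergodic
probabilistic cellular automaton without any rate of convergence: for one cylinder the deviation
at each time equals one for some initial measure, and each sequence tending to zero is exceeded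
infinitely often by the deviation from one initial measure. -/
theorem result (d q : ℕ) (hq : 3 ≤ q) (N : Finset (Fin d → ℤ)) (v : Fin d → ℤ) (hv : v ≠ 0)
    (h0 : 0 ∈ N) (h1 : v ∈ N) (h2 : -v ∈ N) :
    ∃ (f : (N → Fin q) → PMF (Fin q)) (π : ProbabilityMeasure (Config d q)),
      ErgodicTo (Phi N f) π ∧ ¬ UniformlyErgodic (Phi N f) π ∧
        ¬ ExpConv (Phi N f) π ∧ ¬ WeakExpConv (Phi N f) π ∧
        ∃ (D : Finset (Fin d → ℤ)) (w : D → Fin q),
          (∀ t : ℕ, ∃ μ, dev (Phi N f) π μ t D w = 1) ∧
          ∀ g : ℕ → ℝ, Tendsto g atTop (𝓝 0) →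
            ∃ μ, ∃ᶠ t in atTop, g t ≤ dev (Phi N f) π μ t D w := by
  obtain ⟨q, rfl⟩ := Nat.exists_eq_add_of_le' hq
  let B : Bin.Nb d := ⟨N, v, hv, h0, h1, h2⟩
  exact ⟨NU.ru B q, NU.pd fun _ => 0, NU.ergodic B, NU.not_unif B, NU.not_exp' B,
    NU.not_weakExp B, {0}, fun _ => 0, fun t => ⟨_, NU.dev_one B t⟩, NU.no_rate B⟩

end Pool.Agent.Results.MP_37af32_pr.NoRate
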